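import Pool.Agent.H84.LV.Smt

/-!
# MP_70ba79_ag: the inequality for all squarefree monic polynomials with weights
-/

set_option autoImplicit false

namespace Pool.Agent.H84.LV

open Polynomial SC Pool.Agent.H27.LV

variable {k K : Type} [Field k] [Field K] [Algebra k K]

lemma po_one (v : DV k K) : po v (1 : K[X]) = 0 := by
  rw [← Nat.le_zero, po_le_iff]
  intro j
  rw [coeff_one]
  split_ifs
  · rw [v.ord_one]; simp
  · rw [v.ord_zero]; simp

lemma hh_one : hh k (1 : K[X]) = 0 := by
  unfold hh
  simp [po_one]

section Global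

variable [IsAlgClosed k] [CharZero k] [Algebra.EssFiniteType k K]

/-- a nonconstant function has a pole -/
lemma exists_pole (htr : Algebra.trdeg k K = 1) {z : K} (hz : z ∉ Set.range (algebraMap k K)) :
    ∃ v : DV k K, v.ord z < 0 := by
  have hzt : Transcendental k z := by
    intro halg
    apply hz
    have h1 : (minpoly k z).degree = 1 := IsAlgClosed.degree_eq_one_of_irreducible k
      (minpoly.irreducible halg.isIntegral)
    obtain ⟨c, hc⟩ := minpoly.mem_range_of_degree_eq_one k z h1
    exact ⟨c, hc⟩
  have hfd := Pool.Agent.H36.SC.fin_of_transc htr hzt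
  obtain ⟨-, -, h⟩ := Pool.Agent.H76.KN.v5 k K z hzt hfd
  by_contra hcon
  push Not at hcon
  have h0 : ∑ᶠ v : DV k K, (v.deg : ℤ) * max 0 (- v.ord z) = 0 := by
    apply finsum_eq_zero_of_forall_eq_zero
    intro v
    rw [max_eq_left (by have := hcon v; omega), mul_zero]
  rw [h0] at h
  have h1 : 0 < Module.finrank (IntermediateField.adjoin k {z}) K := Module.finrank_pos
  omega

lemma hh_pos (htr : Algebra.trdeg k K = 1) {F : K[X]} {j : ℕ}
    (hj : F.coeff j ∉ Set.range (algebraMap k K)) : 0 < hh k F := by
  obtain ⟨v, hv⟩ := exists_pole htr hj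
  have h1 : 0 < po v F := by
    have := ord_coeff_ge v F j
    omega
  unfold hh
  exact h1.trans_le (single_le_finsum v (po_finite htr F) fun _ => Nat.zero_le _)

lemma hh_mono (htr : Algebra.trdeg k K = 1) {F G : K[X]} (J : ℕ)
    (h : ∀ v : DV k K, po v F ≤ J * po v G) : hh k F ≤ J * hh k G := by
  unfold hh
  have hf : (Function.support fun v : DV k K => J * po v G).Finite :=
    (po_finite htr G).subset fun v hv => by
      simp only [Function.mem_support, ne_eq, mul_eq_zero, not_or] at hv
      exact hv.2
  rw [mul_finsum]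
  exact finsum_le_finsum' (po_finite htr F) hf h

/-- the inequality for squarefree polynomials -/
theorem cor (htr : Algebra.trdeg k K = 1) (D : Derivation k K K) (hD : D ≠ 0)
    (S : Finset (DV k K)) : ∀ (n : ℕ) (F : K[X]), F.Monic → F.natDegree = n → Squarefree F →
    (∀ v, v ∉ S → po v F = 0) → 0 < hh k F → ∀ (I : Finset k) (w : k → ℚ), (∀ c ∈ I, w c ≤ 1) →
    (∀ v, v ∉ S → ∀ c ∈ I, v.ord (F.eval (algebraMap k K c)) = 0 ∨
      1 ≤ (1 - w c) * v.ord (F.eval (algebraMap k K c))) → (2 * n - 1 : ℚ) ≤ ∑ c ∈ I, w c →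
    (∑ c ∈ I, w c - (2 * n - 1)) * hh k F ≤ n * (canDeg D + S.card) := by
  classical
  intro n
  induction n with
  | zero =>
    intro F hF hdeg _ _ hpos
    rw [hF.natDegree_eq_zero.1 hdeg, hh_one] at hpos
    exact absurd hpos (lt_irrefl _)
  | succ n ih =>
    intro F hF hdeg hsq hS hpos I w hw1 hw hc
    by_cases hroot : ∀ c : k, F.eval (algebraMap k K c) ≠ 0
    · have h := smt htr D hD n hF hdeg hsq hroot S hS I w hw1 hw
      push_cast
      linarith
    · push Not at hroot
      obtain ⟨c, hcr⟩ := hroot
      obtain ⟨F1, hF1⟩ := dvd_iff_isRoot.2 hcr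
      have hF1m : F1.Monic := (monic_X_sub_C (algebraMap k K c)).of_mul_monic_left (hF1 ▸ hF)
      have hF1d : F1.natDegree = n := by
        rw [hF1, (monic_X_sub_C _).natDegree_mul hF1m, natDegree_X_sub_C] at hdeg
        omega
      have hpo : ∀ v : DV k K, po v F = po v F1 := by
        intro v
        rw [hF1]
        exact po_mul_X_sub_C (rat k K htr v).2 hF1m c
      have hhh : hh k F = hh k F1 := by
        unfold hh
        exact finsum_congr hpo
      have hord : ∀ (v : DV k K) (b : k), b ≠ c →
          v.ord (F.eval (algebraMap k K b)) = v.ord (F1.eval (algebraMap k K b)) := by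
        intro v b hb
        rw [hF1, eval_mul, eval_sub, eval_X, eval_C, ← map_sub]
        by_cases h0 : F1.eval (algebraMap k K b) = 0
        · rw [h0, mul_zero]
        · rw [v.ord_mul' ((_root_.map_ne_zero _).2 (sub_ne_zero.2 hb)) h0, v.ord_base, zero_add]
      have hI1 : ∑ b ∈ I, w b - 1 ≤ ∑ b ∈ I.erase c, w b := by
        by_cases hcI : c ∈ I
        · have := Finset.add_sum_erase I w hcI
          have := hw1 c hcI
          linarith
        · rw [Finset.erase_eq_of_notMem hcI]
          linarith
      have h := ih F1 hF1m hF1d (hsq.squarefree_of_dvd ⟨X - C (algebraMap k K c), by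
          rw [hF1, mul_comm]⟩) (fun v hv => by rw [← hpo, hS v hv]) (by rwa [← hhh]) (I.erase c) w
        (fun b hb => hw1 b (Finset.mem_of_mem_erase hb)) (fun v hv b hb => by
          rw [← hord v b (Finset.ne_of_mem_erase hb)]
          exact hw v hv b (Finset.mem_of_mem_erase hb)) (by
          push_cast at hc
          linarith)
      rw [← hhh] at h
      push_cast at hc ⊢
      have hH : (0 : ℚ) < hh k F := by exact_mod_cast hpos
      have hle1 : (1 : ℚ) ≤ ∑ b ∈ I.erase c, w b - (2 * n - 1) := by linarith
      have h2 : (0 : ℚ) < n * (canDeg D + S.card) := by nlinarith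
      have hn : (0 : ℚ) ≤ n := by positivity
      have h3 : (0 : ℚ) < (canDeg D : ℚ) + S.card := by
        by_contra hcon
        push Not at hcon
        nlinarith
      have h4 : (∑ b ∈ I, w b - (2 * ((n : ℚ) + 1) - 1)) * hh k F ≤
          (∑ b ∈ I.erase c, w b - (2 * n - 1)) * hh k F := by
        apply mul_le_mul_of_nonneg_right _ hH.le
        linarith
      nlinarith

end Global

/-- Gauss lemma -/
lemma po_mul [Infinite k] {v : DV k K}
    (hrat : ∀ z : K, 0 ≤ v.ord z → ∃ c : k, ge v 1 (z - algebraMap k K c)) {F G : K[X]}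
    (hF : F.Monic) (hG : G.Monic) : po v (F * G) = po v F + po v G := by
  have hfin := (exists_generic hrat hF).union ((exists_generic hrat hG).union
    (exists_generic hrat (hF.mul hG)))
  obtain ⟨c, hc⟩ := hfin.exists_notMem
  simp only [Set.mem_union, Set.mem_ofPred_eq, not_or, not_not] at hc
  obtain ⟨⟨h1, h2⟩, ⟨h3, h4⟩, h5, h6⟩ := hc
  rw [eval_mul, v.ord_mul' h1 h3, h2, h4] at h6
  omega

lemma po_pow [Infinite k] {v : DV k K}
    (hrat : ∀ z : K, 0 ≤ v.ord z → ∃ c : k, ge v 1 (z - algebraMap k K c)) {F : K[X]}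
    (hF : F.Monic) (J : ℕ) : po v (F ^ J) = J * po v F := by
  induction J with
  | zero => rw [pow_zero, po_one, zero_mul]
  | succ J ih => rw [pow_succ, po_mul hrat (hF.pow J) hF, ih]; ring

open UniqueFactorizationMonoid in
/-- the radical of a monic polynomial without factors of multiplicity `J + 1` -/
lemma exists_radical {F : K[X]} (hF : F.Monic) (J : ℕ)
    (hJ : ∀ P : K[X], P ^ (J + 1) ∣ F → IsUnit P) :
    ∃ R : K[X], R.Monic ∧ Squarefree R ∧ R ∣ F ∧ F ∣ R ^ J := by
  classical
  have hF0 : F ≠ 0 := hF.ne_zero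
  have hR0 : radical F ≠ 0 := radical_ne_zero
  have hdvd : F ∣ radical F ^ J := by
    rw [dvd_iff_normalizedFactors_le_normalizedFactors hF0 (pow_ne_zero _ hR0),
      normalizedFactors_pow, Multiset.le_iff_count]
    intro p
    rw [Multiset.count_nsmul]
    by_cases hp : p ∈ normalizedFactors F
    · have h1 : Multiset.count p (normalizedFactors F) ≤ J := by
        by_contra hcon
        push Not at hcon
        have hirr := irreducible_of_normalized_factor p hp
        apply hirr.not_isUnit
        apply hJ
        rw [pow_dvd_iff_le_emultiplicity, emultiplicity_eq_count_normalizedFactors hirr hF0,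
          normalize_normalized_factor p hp]
        exact_mod_cast hcon
      have h2 : 1 ≤ Multiset.count p (normalizedFactors (radical F)) := by
        rw [Multiset.one_le_count_iff_mem, ← mem_primeFactors, primeFactors_radical,
          mem_primeFactors]
        exact hp
      nlinarith
    · rw [Multiset.count_eq_zero_of_notMem hp]
      exact Nat.zero_le _
  obtain ⟨u, hu⟩ : ∃ u : K[X], u = C (radical F).leadingCoeff⁻¹ := ⟨_, rfl⟩
  have huu : IsUnit u := by
    rw [hu, isUnit_C]
    exact isUnit_iff_ne_zero.2 (inv_ne_zero (leadingCoeff_ne_zero.2 hR0))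
  have hass : Associated (radical F) (radical F * u) := (associated_mul_unit_right _ _ huu)
  refine ⟨radical F * u, ?_, ?_, ?_, ?_⟩
  · rw [hu]
    exact monic_mul_leadingCoeff_inv hR0
  · exact (hass.squarefree_iff).1 squarefree_radical
  · exact (hass.dvd_iff_dvd_left).1 radical_dvd_self
  · exact hdvd.trans (hass.pow_pow.dvd)

end Pool.Agent.H84.LV
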