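import Pool.Agent.H27.LV.Final

/-!
# MP_70ba79_ag: Büchi families, definitions
-/

set_option autoImplicit false

namespace Pool.Agent.H84.LV

open Pool.Agent.H27.LV

/-- the monic polynomial `F_y(T) = T ^ n + y_{n-1} T ^ (n-1) + ... + y_0` -/
noncomputable def mp {A : Type} [CommRing A] {n : ℕ} (y : Fin n → A) : Polynomial A :=
  Polynomial.X ^ n + ∑ j : Fin n, Polynomial.C (y j) * Polynomial.X ^ (j : ℕ)

/-- the value `F_y(c)` as a polynomial in the variables `y` of the space with the coordinates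
`y_j` (`j < n`), `x_i` (`i < q`), `u_j` (`j < p`) -/
noncomputable def val {k : Type} [Field k] (n q p : ℕ) (c : k) :
    MvPolynomial (Fin n ⊕ (Fin q ⊕ Fin p)) k :=
  MvPolynomial.C (c ^ n) +
    ∑ j : Fin n, MvPolynomial.C (c ^ (j : ℕ)) * MvPolynomial.X (Sum.inl j)

/-- the equations `x_i ^ μ_i = F_y(a_i)` and `u_j F_y(b_j) = 1` of the Büchi family -/
def buchiEqs {k : Type} [Field k] {n q p : ℕ} (a : Fin q → k) (μ : Fin q → ℕ) (b : Fin p → k) :
    Set (MvPolynomial (Fin n ⊕ (Fin q ⊕ Fin p)) k) :=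
  {P | (∃ i, P = MvPolynomial.X (Sum.inr (Sum.inl i)) ^ μ i - val n q p (a i)) ∨
    ∃ j, P = MvPolynomial.X (Sum.inr (Sum.inr j)) * val n q p (b j) - 1}

/-- the polynomial `F_y` has a root of multiplicity larger than `J` -/
def MultRoot {k : Type} [Field k] (J : ℕ) {n : ℕ} (y : Fin n → k) : Prop :=
  ∃ r : k, (Polynomial.X - Polynomial.C r) ^ (J + 1) ∣ mp y

end Pool.Agent.H84.LV
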