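import Pool.Agent.H84.LV.Defs

/-!
# MP_70ba79_ag: the exceptional set of the Büchi family is Zariski closed
-/

set_option autoImplicit false

namespace Pool.Agent.H84.LV

open Polynomial

section Ring

variable {A : Type} [CommRing A] {n : ℕ}

lemma natDegree_sum_lt (y : Fin n → A) :
    (∑ j : Fin n, C (y j) * X ^ (j : ℕ) : A[X]).degree < n := by
  refine lt_of_le_of_lt (degree_sum_le _ _) ?_
  rw [Finset.sup_lt_iff (by exact_mod_cast WithBot.bot_lt_coe n)]
  intro j _
  refine lt_of_le_of_lt (degree_C_mul_X_pow_le _ _) ?_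
  exact_mod_cast j.2

lemma mp_monic (y : Fin n → A) : (mp y).Monic := monic_X_pow_add (natDegree_sum_lt y)

lemma mp_natDegree [Nontrivial A] (y : Fin n → A) : (mp y).natDegree = n := by
  unfold mp
  rw [add_comm, natDegree_add_eq_right_of_degree_lt, natDegree_X_pow]
  rw [degree_X_pow]
  exact natDegree_sum_lt y

lemma mp_coeff (y : Fin n → A) (j : Fin n) : (mp y).coeff j = y j := by
  unfold mp
  rw [coeff_add, coeff_X_pow, if_neg (by have := j.2; omega), zero_add, finsetSum_coeff,
    Finset.sum_eq_single j]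
  · rw [coeff_C_mul_X_pow, if_pos rfl]
  · intro i _ hij
    rw [coeff_C_mul_X_pow, if_neg]
    intro h
    exact hij (Fin.ext h.symm)
  · intro h
    exact absurd (Finset.mem_univ _) h

lemma mp_map {B : Type} [CommRing B] (f : A →+* B) (y : Fin n → A) :
    (mp y).map f = mp (fun j => f (y j)) := by
  unfold mp
  rw [Polynomial.map_add, Polynomial.map_pow, map_X, Polynomial.map_sum]
  congr 1
  apply Finset.sum_congr rfl
  intro j _
  rw [Polynomial.map_mul, map_C, Polynomial.map_pow, map_X]

/-- combination of the derivatives of order `1, …, J` -/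
noncomputable def dd (J : ℕ) (s : A) (F : A[X]) : A[X] :=
  ∑ l ∈ Finset.range J, C (s ^ (l + 1)) * derivative^[l + 1] F

lemma dd_map {B : Type} [CommRing B] (f : A →+* B) (J : ℕ) (s : A) (F : A[X]) :
    (dd J s F).map f = dd J (f s) (F.map f) := by
  unfold dd
  rw [Polynomial.map_sum]
  apply Finset.sum_congr rfl
  intro l _
  rw [Polynomial.map_mul, map_C, map_pow, iterate_derivative_map]

lemma natDegree_dd_le (J : ℕ) (s : A) (F : A[X]) : (dd J s F).natDegree ≤ F.natDegree - 1 := by
  apply natDegree_sum_le_of_forall_le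
  intro l _
  refine natDegree_C_mul_le _ _ |>.trans ?_
  refine (natDegree_iterate_derivative F (l + 1)).trans ?_
  omega

end Ring

/-- the equations of the exceptional set -/
noncomputable def exc (k : Type) [Field k] (n J : ℕ) (s : k) : MvPolynomial (Fin n) k :=
  resultant (mp fun j : Fin n => (MvPolynomial.X j : MvPolynomial (Fin n) k))
    (dd J (MvPolynomial.C s) (mp fun j : Fin n => (MvPolynomial.X j : MvPolynomial (Fin n) k)))
    n (n - 1)

lemma res_iff {L : Type} [Field L] {f g : L[X]} (hf : f.Monic) {N : ℕ} (hN : g.natDegree ≤ N) :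
    resultant f g f.natDegree N ≠ 0 ↔ IsCoprime f g := by
  obtain ⟨t, rfl⟩ := Nat.exists_eq_add_of_le hN
  rw [resultant_add_right_deg _ _ _ _ _ le_rfl, hf.coeff_natDegree, one_pow, one_mul, Ne,
    resultant_eq_zero_iff, not_and_not_right]
  exact ⟨fun h => h (Or.inl hf.ne_zero), fun h _ => h⟩

variable {k : Type} [Field k] {n : ℕ}

lemma aeval_exc {L : Type} [Field L] [Algebra k L] (J : ℕ) (s : k) (y : Fin n → L) :
    MvPolynomial.aeval y (exc k n J s) ≠ 0 ↔ IsCoprime (mp y) (dd J (algebraMap k L s) (mp y)) := by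
  obtain ⟨φ, hφ⟩ : ∃ φ : MvPolynomial (Fin n) k →+* L,
      φ = (MvPolynomial.aeval (R := k) y).toRingHom := ⟨_, rfl⟩
  have hφX : ∀ j, φ (MvPolynomial.X j) = y j := fun j => by
    rw [hφ]; exact MvPolynomial.aeval_X y j
  have hφC : φ (MvPolynomial.C s) = algebraMap k L s := by
    rw [hφ]; exact MvPolynomial.aeval_C y s
  have hφa : φ (exc k n J s) = MvPolynomial.aeval y (exc k n J s) := by rw [hφ]; rfl
  have h := resultant_map_map (mp fun j : Fin n => (MvPolynomial.X j : MvPolynomial (Fin n) k))
    (dd J (MvPolynomial.C s) (mp fun j : Fin n => (MvPolynomial.X j : MvPolynomial (Fin n) k)))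
    n (n - 1) φ
  rw [dd_map, mp_map] at h
  have h' : resultant (mp y) (dd J (algebraMap k L s) (mp y)) n (n - 1) = φ (exc k n J s) := by
    have e1 : (fun j => φ (MvPolynomial.X j)) = y := funext hφX
    rw [← e1, ← hφC]
    exact h
  rw [← hφa, ← h', ← res_iff (mp_monic y) (N := n - 1), mp_natDegree]
  have := natDegree_dd_le J (algebraMap k L s) (mp y)
  rwa [mp_natDegree] at this

/-- a factor of multiplicity `J + 1` is a common factor of all the derivatives -/
lemma not_isCoprime_of_pow_dvd {L : Type} [Field L] {F P : L[X]} {J : ℕ} (s : L)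
    (hP : ¬ IsUnit P) (h : P ^ (J + 1) ∣ F) : ¬ IsCoprime F (dd J s F) := by
  intro hc
  apply hP
  apply hc.isUnit_of_dvd' ((dvd_pow_self P (by omega)).trans h)
  unfold dd
  apply Finset.dvd_sum
  intro l hl
  rw [Finset.mem_range] at hl
  apply Dvd.dvd.mul_left
  refine (dvd_pow_self P ?_).trans (pow_sub_dvd_iterate_derivative_of_pow_dvd (l + 1) h)
  omega

variable [IsAlgClosed k] [CharZero k]

lemma exists_exc_ne_zero (J : ℕ) (y : Fin n → k) (hy : ¬ MultRoot J y) :
    ∃ s : k, MvPolynomial.eval y (exc k n J s) ≠ 0 := by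
  classical
  have hF0 : mp y ≠ 0 := (mp_monic y).ne_zero
  obtain ⟨g, hg⟩ : ∃ g : k → k[X], g = fun r => ∑ l ∈ Finset.range J,
      C ((derivative^[l + 1] (mp y)).eval r) * X ^ (l + 1) := ⟨_, rfl⟩
  have hgs : ∀ r s : k, (g r).eval s = (dd J s (mp y)).eval r := by
    intro r s
    rw [hg]
    unfold dd
    simp only
    rw [eval_finsetSum, eval_finsetSum]
    apply Finset.sum_congr rfl
    intro l _
    simp only [eval_mul, eval_C, eval_pow, eval_X]
    ring
  have hg0 : ∀ r : k, (mp y).IsRoot r → g r ≠ 0 := by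
    intro r hr h0
    apply hy
    refine ⟨r, ?_⟩
    rw [← le_rootMultiplicity_iff hF0]
    apply lt_rootMultiplicity_of_isRoot_iterate_derivative hF0
    intro m hm
    rcases m with - | l
    · exact hr
    · have h1 : (g r).coeff (l + 1) = (derivative^[l + 1] (mp y)).eval r := by
        rw [hg]
        simp only
        rw [finsetSum_coeff, Finset.sum_eq_single l]
        · rw [coeff_C_mul_X_pow, if_pos rfl]
        · intro i _ hi
          rw [coeff_C_mul_X_pow, if_neg (by omega)]
        · intro h
          exact absurd (Finset.mem_range.2 (by omega)) h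
      rw [h0, coeff_zero] at h1
      exact h1.symm
  have hfin : (⋃ r ∈ (mp y).roots.toFinset, {s : k | (g r).IsRoot s}).Finite := by
    apply Set.Finite.biUnion (Finset.finite_toSet _)
    intro r hr
    rw [Finset.mem_coe, Multiset.mem_toFinset, mem_roots hF0] at hr
    exact finite_setOfPred_isRoot (hg0 r hr)
  obtain ⟨s, hs⟩ := hfin.exists_notMem
  refine ⟨s, ?_⟩
  have h1 := (aeval_exc (k := k) (L := k) J s y).2 (by
    rw [isCoprime_iff_aeval_ne_zero_of_isAlgClosed (k := k) k]
    intro r
    by_cases hr : (mp y).IsRoot r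
    · right
      intro h0
      apply hs
      rw [Set.mem_iUnion₂]
      refine ⟨r, by rw [Multiset.mem_toFinset, mem_roots hF0]; exact hr, ?_⟩
      rw [Set.mem_ofPred_eq, IsRoot.def, hgs]
      simpa using h0
    · left
      simpa using hr)
  simpa using h1

/-- the points of the exceptional set -/
lemma multRoot_iff (J : ℕ) (y : Fin n → k) :
    MultRoot J y ↔ ∀ s, MvPolynomial.eval y (exc k n J s) = 0 := by
  constructor
  · rintro ⟨r, hr⟩ s
    by_contra hne
    have h1 := (aeval_exc (k := k) (L := k) J s y).1 (by simpa using hne)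
    exact not_isCoprime_of_pow_dvd _ (not_isUnit_X_sub_C r) hr h1
  · intro h
    by_contra hcon
    obtain ⟨s, hs⟩ := exists_exc_ne_zero J y hcon
    exact hs (h s)

/-- the exceptional set is Zariski closed -/
theorem closed (J : ℕ) (y : Fin n → k) (h : ∀ g : MvPolynomial (Fin n) k,
    (∀ y' : Fin n → k, MultRoot J y' → MvPolynomial.eval y' g = 0) →
      MvPolynomial.eval y g = 0) : MultRoot J y := by
  rw [multRoot_iff]
  intro s
  apply h
  intro y' hy'
  exact (multRoot_iff J y').1 hy' s

/-- a point of the function field which is not in the exceptional set -/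
theorem powerfree {K : Type} [Field K] [Algebra k K] (J : ℕ) (g : MvPolynomial (Fin n) k)
    (hg : ∀ y' : Fin n → k, MultRoot J y' → MvPolynomial.eval y' g = 0) (y : Fin n → K)
    (hy : MvPolynomial.aeval y g ≠ 0) (P : K[X]) (hP : P ^ (J + 1) ∣ mp y) : IsUnit P := by
  obtain ⟨I, hI⟩ : ∃ I : Ideal (MvPolynomial (Fin n) k), I = Ideal.span (Set.range (exc k n J)) :=
    ⟨_, rfl⟩
  have h1 : g ∈ I.radical := by
    rw [← MvPolynomial.vanishingIdeal_zeroLocus_eq_radical (K := k)]
    intro y' hy'
    have h2 : MultRoot J y' := by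
      rw [multRoot_iff]
      intro s
      have h3 := hy' (exc k n J s) (by rw [hI]; exact Ideal.subset_span ⟨s, rfl⟩)
      simpa using h3
    simpa using hg y' h2
  obtain ⟨N, hN⟩ := h1
  by_contra hPu
  apply hy
  have h4 : I ≤ RingHom.ker (MvPolynomial.aeval (R := k) y) := by
    rw [hI, Ideal.span_le]
    rintro _ ⟨s, rfl⟩
    rw [SetLike.mem_coe, RingHom.mem_ker]
    by_contra hne
    exact not_isCoprime_of_pow_dvd _ hPu hP ((aeval_exc J s y).1 hne)
  have h5 := h4 hN
  rw [RingHom.mem_ker, map_pow] at h5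
  rcases Nat.eq_zero_or_pos N with h | h
  · rw [h, pow_zero] at h5
    exact absurd h5 one_ne_zero
  · exact (pow_eq_zero_iff h.ne').1 h5

end Pool.Agent.H84.LV
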