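import Pool.Agent.H84.LV.Exc
import Pool.Agent.H84.LV.Cor

/-!
# MP_70ba79_ag: Q1 for the Büchi family
-/

set_option autoImplicit false

namespace Pool.Agent.H84.LV

open Polynomial SC Pool.Agent.H27.LV

variable {k K : Type} [Field k] [Field K] [Algebra k K] {n : ℕ}

lemma mp_eval_mem (y : Fin n → K) (hy : ∀ j, y j ∈ Set.range (algebraMap k K)) (c : k) :
    (mp y).eval (algebraMap k K c) ∈ Set.range (algebraMap k K) := by
  have h1 : (mp y).eval (algebraMap k K c) ∈ (algebraMap k K).range := by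
    unfold mp
    rw [eval_add, eval_pow, eval_X, eval_finsetSum]
    have hc : algebraMap k K c ∈ (algebraMap k K).range := ⟨c, rfl⟩
    refine add_mem (pow_mem hc _) (sum_mem fun j _ => ?_)
    rw [eval_mul, eval_C, eval_pow, eval_X]
    exact mul_mem (hy j) (pow_mem hc _)
  exact h1

lemma aeval_val {q p : ℕ} (z : Fin n ⊕ (Fin q ⊕ Fin p) → K) (c : k) :
    MvPolynomial.aeval z (val n q p c) =
      (mp fun j => z (Sum.inl j)).eval (algebraMap k K c) := by
  unfold val mp
  rw [map_add, map_sum, MvPolynomial.aeval_C, eval_add, eval_pow, eval_X, eval_finsetSum, map_pow]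
  congr 1
  apply Finset.sum_congr rfl
  intro j _
  rw [map_mul, MvPolynomial.aeval_C, MvPolynomial.aeval_X, eval_mul, eval_C, eval_pow, eval_X,
    map_pow, mul_comm]

lemma po_mp_le (v : DV k K) (y : Fin n → K) (t : ℕ) :
    po v (mp y) ≤ t ↔ ∀ j, -(t : ℤ) ≤ v.ord (y j) := by
  rw [po_le_iff]
  constructor
  · intro h j
    have := h j
    rwa [mp_coeff] at this
  · intro h j
    rcases lt_trichotomy j n with hj | hj | hj
    · have := mp_coeff y ⟨j, hj⟩
      simp only at this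
      rw [this]
      exact h _
    · have h1 := (mp_monic y).coeff_natDegree
      rw [mp_natDegree] at h1
      rw [hj, h1, v.ord_one]
      omega
    · rw [coeff_eq_zero_of_natDegree_lt (by rw [mp_natDegree]; exact hj), v.ord_zero]
      omega

section Global

variable [IsAlgClosed k] [CharZero k] [Algebra.EssFiniteType k K]

/-- weights: `ν = ⌈μ / J⌉` -/
lemma weight_ineq {μ J : ℕ} (hμ : 1 ≤ μ) (hJ : 1 ≤ J) {t : ℤ} (ht : (μ : ℤ) ≤ J * t) :
    (1 : ℚ) ≤ (1 - (1 - 1 / ((⌈(μ : ℚ) / J⌉ : ℤ) : ℚ))) * t := by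
  have hJ0 : (0 : ℚ) < J := by exact_mod_cast hJ
  have hμ0 : (0 : ℚ) < μ := by exact_mod_cast hμ
  have h1 : (0 : ℤ) < ⌈(μ : ℚ) / J⌉ := Int.ceil_pos.2 (div_pos hμ0 hJ0)
  have h2 : ⌈(μ : ℚ) / J⌉ ≤ t := by
    rw [Int.ceil_le, div_le_iff₀ hJ0]
    have : ((μ : ℤ) : ℚ) ≤ ((J * t : ℤ) : ℚ) := by exact_mod_cast ht
    push_cast at this
    linarith
  have h3 : (0 : ℚ) < ((⌈(μ : ℚ) / J⌉ : ℤ) : ℚ) := by exact_mod_cast h1
  have h4 : ((⌈(μ : ℚ) / J⌉ : ℤ) : ℚ) ≤ (t : ℚ) := by exact_mod_cast h2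
  rw [sub_sub_cancel, one_div, inv_mul_eq_div, one_le_div h3]
  exact h4

/-- the main inequality: heights -/
theorem height_bound (htr : Algebra.trdeg k K = 1) (D : Derivation k K K) (hD : D ≠ 0)
    (S : Finset (DV k K)) {q p J : ℕ} (hJ : 1 ≤ J) (a : Fin q → k) (b : Fin p → k)
    (hab : Function.Injective (Sum.elim a b)) (μ : Fin q → ℕ) (hμ : ∀ i, 1 ≤ μ i)
    (y : Fin n → K) (x : Fin q → K) (u : Fin p → K) (hyS : ∀ v, v ∉ S → ∀ j, 0 ≤ v.ord (y j))
    (huS : ∀ v, v ∉ S → ∀ i, 0 ≤ v.ord (u i))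
    (hx : ∀ i, x i ^ μ i = (mp y).eval (algebraMap k K (a i)))
    (hu : ∀ j, u j * (mp y).eval (algebraMap k K (b j)) = 1)
    (hnc : ∃ j, y j ∉ Set.range (algebraMap k K))
    (hpf : ∀ P : K[X], P ^ (J + 1) ∣ mp y → IsUnit P)
    (hc : (2 * n - 1 : ℚ) ≤ ∑ i, (1 - 1 / ((⌈(μ i : ℚ) / J⌉ : ℤ) : ℚ)) + p) :
    (∑ i, (1 - 1 / ((⌈(μ i : ℚ) / J⌉ : ℤ) : ℚ)) + p - (2 * n - 1)) * hh k (mp y) ≤
      J * n * (canDeg D + S.card) := by
  classical
  obtain ⟨F, hF⟩ : ∃ F, F = mp y := ⟨_, rfl⟩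
  have hFm : F.Monic := hF ▸ mp_monic y
  have hFd : F.natDegree = n := hF ▸ mp_natDegree y
  rw [← hF] at hx hu hpf ⊢
  obtain ⟨R, hRm, hRsq, hRF, hFR⟩ := exists_radical hFm J hpf
  have hrat : ∀ v : DV k K, ∀ z : K, 0 ≤ v.ord z → ∃ c : k, ge v 1 (z - algebraMap k K c) :=
    fun v => (rat k K htr v).2
  obtain ⟨E, hE⟩ := hRF
  obtain ⟨E', hE'⟩ := hFR
  have hEm : E.Monic := hRm.of_mul_monic_left (hE ▸ hFm)
  have hE'm : E'.Monic := hFm.of_mul_monic_left (hE' ▸ hRm.pow J)
  have hpo1 : ∀ v : DV k K, po v F = po v R + po v E := fun v => by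
    rw [hE, po_mul (hrat v) hRm hEm]
  have hpo2 : ∀ v : DV k K, J * po v R = po v F + po v E' := fun v => by
    rw [← po_pow (hrat v) hRm, hE', po_mul (hrat v) hFm hE'm]
  have hpoF : ∀ v, v ∉ S → po v F = 0 := by
    intro v hv
    rw [← Nat.le_zero, hF, po_mp_le]
    intro j
    simpa using hyS v hv j
  have hpoR : ∀ v, v ∉ S → po v R = 0 := by
    intro v hv
    have := hpo1 v
    rw [hpoF v hv] at this
    omega
  -- orders of the values
  have hordnn : ∀ v, v ∉ S → ∀ (G : K[X]), po v G = 0 → ∀ c : k,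
      0 ≤ v.ord (G.eval (algebraMap k K c)) := by
    intro v _ G hG c
    have := po_add_ord_nonneg v G c
    rw [hG] at this
    simpa using this
  have hord1 : ∀ v, v ∉ S → ∀ c : k, F.eval (algebraMap k K c) ≠ 0 →
      v.ord (R.eval (algebraMap k K c)) ≤ v.ord (F.eval (algebraMap k K c)) := by
    intro v hv c hc0
    have h1 := hc0
    rw [hE, eval_mul] at h1
    have h2 := hordnn v hv E (by have := hpo1 v; rw [hpoF v hv] at this; omega) c
    rw [hE, eval_mul, v.ord_mul' (left_ne_zero_of_mul h1) (right_ne_zero_of_mul h1)]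
    omega
  have hord2 : ∀ v, v ∉ S → ∀ c : k, F.eval (algebraMap k K c) ≠ 0 →
      v.ord (F.eval (algebraMap k K c)) ≤ J * v.ord (R.eval (algebraMap k K c)) := by
    intro v hv c hc0
    have hR0 : R.eval (algebraMap k K c) ≠ 0 := by
      intro h0
      apply hc0
      rw [hE, eval_mul, h0, zero_mul]
    have h1 : (R.eval (algebraMap k K c)) ^ J = F.eval (algebraMap k K c) *
        E'.eval (algebraMap k K c) := by
      rw [← eval_pow, hE', eval_mul]
    have h2 : E'.eval (algebraMap k K c) ≠ 0 := by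
      intro h0
      rw [h0, mul_zero] at h1
      exact pow_ne_zero _ hR0 h1
    have h3 := hordnn v hv E' (by
      have := hpo2 v
      rw [hpoF v hv, hpoR v hv] at this
      omega) c
    rw [← v.ord_pow, h1, v.ord_mul' hc0 h2]
    omega
  -- heights
  have hhF : hh k F ≤ J * hh k R := by
    apply hh_mono htr
    intro v
    have := hpo2 v
    omega
  have hhpos : 0 < hh k F := by
    obtain ⟨j, hj⟩ := hnc
    apply hh_pos htr (j := j)
    rw [hF, mp_coeff]
    exact hj
  have hhR : 0 < hh k R := by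
    by_contra hcon
    have : hh k R = 0 := by omega
    rw [this, mul_zero] at hhF
    omega
  -- the weights
  obtain ⟨ω, hω⟩ : ∃ ω : Fin q ⊕ Fin p → ℚ,
      ω = Sum.elim (fun i => 1 - 1 / ((⌈(μ i : ℚ) / J⌉ : ℤ) : ℚ)) (fun _ => 1) := ⟨_, rfl⟩
  obtain ⟨w, hw⟩ : ∃ w : k → ℚ, w = Function.extend (Sum.elim a b) ω 0 := ⟨_, rfl⟩
  have hwv : ∀ i, w (Sum.elim a b i) = ω i := by
    intro i
    rw [hw, hab.extend_apply]
  obtain ⟨I, hI⟩ : ∃ I : Finset k, I = Finset.univ.map ⟨Sum.elim a b, hab⟩ := ⟨_, rfl⟩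
  have hIm : ∀ c ∈ I, ∃ i, Sum.elim a b i = c := by
    intro c hc
    rw [hI, Finset.mem_map] at hc
    obtain ⟨i, -, hi⟩ := hc
    exact ⟨i, hi⟩
  have hsum : ∑ c ∈ I, w c = ∑ i, (1 - 1 / ((⌈(μ i : ℚ) / J⌉ : ℤ) : ℚ)) + p := by
    rw [hI, Finset.sum_map]
    simp only [Function.Embedding.coeFn_mk, hwv]
    rw [Fintype.sum_sum_type, hω]
    simp
  have hν : ∀ i, (0 : ℚ) < ((⌈(μ i : ℚ) / J⌉ : ℤ) : ℚ) := by
    intro i
    have hJ0 : (0 : ℚ) < J := by exact_mod_cast hJ
    have hμ0 : (0 : ℚ) < μ i := by exact_mod_cast hμ i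
    exact_mod_cast Int.ceil_pos.2 (div_pos hμ0 hJ0)
  have hw1 : ∀ c ∈ I, w c ≤ 1 := by
    intro c hc
    obtain ⟨i, rfl⟩ := hIm c hc
    rw [hwv, hω]
    rcases i with i | j
    · simp only [Sum.elim_inl]
      have := one_div_pos.2 (hν i)
      linarith
    · simp
  have hwc : ∀ v, v ∉ S → ∀ c ∈ I, v.ord (R.eval (algebraMap k K c)) = 0 ∨
      1 ≤ (1 - w c) * v.ord (R.eval (algebraMap k K c)) := by
    intro v hv c hc
    obtain ⟨i, rfl⟩ := hIm c hc
    have hnn := hordnn v hv R (hpoR v hv) (Sum.elim a b i)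
    rcases hnn.eq_or_lt with h0 | hpos
    · exact Or.inl h0.symm
    rcases i with i | j
    · right
      rw [hwv, hω]
      simp only [Sum.elim_inl] at hpos ⊢
      have hR0 : R.eval (algebraMap k K (a i)) ≠ 0 := by
        intro h0
        rw [h0, v.ord_zero] at hpos
        exact lt_irrefl _ hpos
      have h1 : (R.eval (algebraMap k K (a i))) ^ J = F.eval (algebraMap k K (a i)) *
          E'.eval (algebraMap k K (a i)) := by
        rw [← eval_pow, hE', eval_mul]
      have hF0 : F.eval (algebraMap k K (a i)) ≠ 0 := by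
        intro h0
        rw [h0, zero_mul] at h1
        exact pow_ne_zero _ hR0 h1
      have h2 := hord1 v hv (a i) hF0
      have h3 := hord2 v hv (a i) hF0
      have h4 : v.ord (F.eval (algebraMap k K (a i))) = μ i * v.ord (x i) := by
        rw [← hx i, v.ord_pow]
      have h5 : 0 < v.ord (x i) := by
        by_contra hcon
        push Not at hcon
        have : (μ i : ℤ) * v.ord (x i) ≤ 0 :=
          mul_nonpos_of_nonneg_of_nonpos (by positivity) hcon
        omega
      have h6 : (μ i : ℤ) ≤ μ i * v.ord (x i) := by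
        have : (0 : ℤ) ≤ μ i := by positivity
        nlinarith
      exact weight_ineq (hμ i) hJ (by omega)
    · exfalso
      simp only [Sum.elim_inr] at hpos
      have h1 := hu j
      have hne : F.eval (algebraMap k K (b j)) ≠ 0 := by
        intro h0
        rw [h0, mul_zero] at h1
        exact zero_ne_one h1
      have hne' : u j ≠ 0 := by
        intro h0
        rw [h0, zero_mul] at h1
        exact zero_ne_one h1
      have h2 := v.ord_mul' hne' hne
      rw [h1, v.ord_one] at h2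
      have h3 := huS v hv j
      have h4 := hord1 v hv (b j) hne
      omega
  have hRn : R.natDegree ≤ n := by
    rw [← hFd]
    exact natDegree_le_of_dvd ⟨E, hE⟩ hFm.ne_zero
  have hRn' : (R.natDegree : ℚ) ≤ n := by exact_mod_cast hRn
  have hR1 : (1 : ℚ) ≤ R.natDegree := by
    have : R.natDegree ≠ 0 := by
      intro h0
      rw [hRm.natDegree_eq_zero.1 h0, hh_one] at hhR
      exact lt_irrefl _ hhR
    exact_mod_cast Nat.one_le_iff_ne_zero.2 this
  have hmain := cor htr D hD S R.natDegree R hRm rfl hRsq hpoR hhR I w hw1 hwc (by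
    rw [hsum]
    linarith)
  rw [hsum] at hmain
  obtain ⟨c, hcdef⟩ : ∃ c : ℚ, c = ∑ i, (1 - 1 / ((⌈(μ i : ℚ) / J⌉ : ℤ) : ℚ)) + p := ⟨_, rfl⟩
  rw [← hcdef] at hmain hc ⊢
  have hH : (0 : ℚ) < hh k R := by exact_mod_cast hhR
  have hJ0 : (0 : ℚ) < J := by exact_mod_cast hJ
  have hhF' : (hh k F : ℚ) ≤ J * hh k R := by exact_mod_cast hhF
  have h1 : (c - (2 * n - 1)) * hh k R ≤ (c - (2 * R.natDegree - 1)) * hh k R := by
    apply mul_le_mul_of_nonneg_right _ hH.le
    linarith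
  have h2 : (0 : ℚ) ≤ (c - (2 * n - 1)) * hh k R := mul_nonneg (by linarith) hH.le
  have h3 : (0 : ℚ) ≤ (canDeg D : ℚ) + S.card := by
    by_contra hcon
    push Not at hcon
    nlinarith
  have h4 : (R.natDegree : ℚ) * (canDeg D + S.card) ≤ n * (canDeg D + S.card) :=
    mul_le_mul_of_nonneg_right hRn' h3
  calc (c - (2 * n - 1)) * hh k F ≤ (c - (2 * n - 1)) * (J * hh k R) :=
        mul_le_mul_of_nonneg_left hhF' (by linarith)
    _ = J * ((c - (2 * n - 1)) * hh k R) := by ring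
    _ ≤ J * (n * (canDeg D + S.card)) := mul_le_mul_of_nonneg_left (by linarith) hJ0.le
    _ = J * n * (canDeg D + S.card) := by ring

lemma cast_hh (htr : Algebra.trdeg k K = 1) (F : K[X]) :
    ((hh k F : ℕ) : ℤ) = ∑ᶠ v : DV k K, (po v F : ℤ) := by
  unfold hh
  exact AddMonoidHom.map_finsum (Nat.castAddMonoidHom ℤ) (f := fun v : DV k K => po v F)
    (by exact po_finite htr F)

omit [IsAlgClosed k] [CharZero k] [Algebra.EssFiniteType k K] in
lemma finsum_mono {f g : DV k K → ℤ} (hf : {v | f v ≠ 0}.Finite) (hg : {v | g v ≠ 0}.Finite)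
    (h : ∀ v, f v ≤ g v) : ∑ᶠ v, f v ≤ ∑ᶠ v, g v :=
  finsum_le_finsum' hf hg h

/-- degree of the curve in the Büchi family -/
theorem deg_le (htr : Algebra.trdeg k K = 1) {q p : ℕ} (a : Fin q → k)
    (b : Fin p → k) (μ : Fin q → ℕ) (hμ : ∀ i, 1 ≤ μ i)
    (z : Fin n ⊕ (Fin q ⊕ Fin p) → K)
    (hx : ∀ i, z (Sum.inr (Sum.inl i)) ^ μ i =
      (mp fun j => z (Sum.inl j)).eval (algebraMap k K (a i)))
    (hu : ∀ j, z (Sum.inr (Sum.inr j)) *
      (mp fun j => z (Sum.inl j)).eval (algebraMap k K (b j)) = 1) :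
    deg k z ≤ (p + 1) * hh k (mp fun j => z (Sum.inl j)) := by
  classical
  obtain ⟨F, hF⟩ : ∃ F, F = mp fun j => z (Sum.inl j) := ⟨_, rfl⟩
  rw [← hF] at hx hu ⊢
  have hbne : ∀ j, F.eval (algebraMap k K (b j)) ≠ 0 := by
    intro j h0
    have h1 := hu j
    rw [h0, mul_zero] at h1
    exact zero_ne_one h1
  have hune : ∀ j, z (Sum.inr (Sum.inr j)) ≠ 0 := by
    intro j h0
    have h1 := hu j
    rw [h0, zero_mul] at h1
    exact zero_ne_one h1
  have hubord : ∀ (v : DV k K) j, v.ord (z (Sum.inr (Sum.inr j))) =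
      - v.ord (F.eval (algebraMap k K (b j))) := by
    intro v j
    have h1 := v.ord_mul' (hune j) (hbne j)
    rw [hu j, v.ord_one] at h1
    omega
  have hle : ∀ v : DV k K, (poleOrder v z : ℤ) ≤ po v F +
      ∑ j, (v.ord (F.eval (algebraMap k K (b j))) + po v F) := by
    intro v
    have hnn : ∀ j, 0 ≤ v.ord (F.eval (algebraMap k K (b j))) + po v F := fun j =>
      po_add_ord_nonneg v F (b j)
    have hsnn : 0 ≤ ∑ j, (v.ord (F.eval (algebraMap k K (b j))) + po v F) :=
      Finset.sum_nonneg fun j _ => hnn j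
    have h1 : poleOrder v z ≤ (po v F + ∑ j, (v.ord (F.eval (algebraMap k K (b j))) +
        po v F)).toNat := by
      apply poleOrder_le
      intro i
      rw [Int.toNat_of_nonneg (by omega)]
      rcases i with j | i | j
      · have := (po_mp_le v (fun j => z (Sum.inl j)) (po v F)).1 (by rw [hF]) j
        omega
      · have h2 := po_add_ord_nonneg v F (a i)
        rw [← hx i, v.ord_pow] at h2
        have h3 : (1 : ℤ) ≤ μ i := by exact_mod_cast hμ i
        by_contra hcon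
        push Not at hcon
        nlinarith
      · have h2 := Finset.single_le_sum (f := fun j => v.ord (F.eval (algebraMap k K (b j))) +
          (po v F : ℤ)) (fun j _ => hnn j) (Finset.mem_univ j)
        rw [hubord]
        omega
    omega
  have hf1 : ∀ j, {v : DV k K | (v.ord (F.eval (algebraMap k K (b j))) + po v F : ℤ) ≠
      0}.Finite := by
    intro j
    refine ((pfm k K htr (F.eval (algebraMap k K (b j)))).1.union (po_finite htr F)).subset ?_
    intro v hv
    simp only [Set.mem_union, Set.mem_ofPred_eq] at hv ⊢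
    by_contra hcon
    push Not at hcon
    apply hv
    rw [hcon.1, hcon.2]
    simp
  have hf2 : {v : DV k K | (∑ j, (v.ord (F.eval (algebraMap k K (b j))) + po v F) : ℤ) ≠
      0}.Finite := by
    refine (Set.finite_iUnion hf1).subset fun v hv => ?_
    obtain ⟨j, -, hj⟩ := Finset.exists_ne_zero_of_sum_ne_zero hv
    exact Set.mem_iUnion.2 ⟨j, hj⟩
  have hf3 : {v : DV k K | (po v F : ℤ) ≠ 0}.Finite := by
    refine (po_finite htr F).subset fun v hv => ?_
    simpa using hv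
  have hf4 : {v : DV k K | (poleOrder v z : ℤ) ≠ 0}.Finite := by
    refine (pfi k K htr _ z).subset fun v hv => ?_
    simpa using hv
  have h1 := finsum_mono hf4 (by
    refine (hf3.union hf2).subset fun v hv => ?_
    simp only [Set.mem_union, Set.mem_ofPred_eq] at hv ⊢
    by_contra hcon
    push Not at hcon
    apply hv
    rw [hcon.2, hcon.1, add_zero]) hle
  rw [finsum_add_distrib hf3 hf2, ← cast_deg htr, ← cast_hh htr] at h1
  have h2 : ∑ᶠ v : DV k K, ∑ j, (v.ord (F.eval (algebraMap k K (b j))) + po v F : ℤ) =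
      p * hh k F := by
    rw [finsum_sum_comm Finset.univ _ fun j _ => hf1 j]
    have h3 : ∀ j, ∑ᶠ v : DV k K, (v.ord (F.eval (algebraMap k K (b j))) + po v F : ℤ) =
        hh k F := by
      intro j
      rw [finsum_add_distrib (pfm k K htr _).1 hf3, (pfm k K htr _).2, zero_add, cast_hh htr]
    simp [h3]
  rw [h2] at h1
  have h4 : (deg k z : ℤ) ≤ ((p + 1) * hh k F : ℕ) := by
    push_cast
    linarith
  exact_mod_cast h4

end Global

/-- Q1 for the Büchi family -/
theorem buchi_bound (k : Type) [Field k] [IsAlgClosed k] [CharZero k] (n q p J : ℕ) (hJ : 1 ≤ J)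
    (a : Fin q → k) (b : Fin p → k) (hab : Function.Injective (Sum.elim a b)) (μ : Fin q → ℕ)
    (hμ : ∀ i, 1 ≤ μ i) (c : ℚ)
    (hc : c = ∑ i, (1 - 1 / ((⌈(μ i : ℚ) / J⌉ : ℤ) : ℚ)) + p - (2 * n - 1)) (hc0 : 0 < c)
    (P : Set (MvPolynomial (Fin n ⊕ (Fin q ⊕ Fin p)) k)) (hP : buchiEqs a μ b ⊆ P)
    (g : MvPolynomial (Fin n) k)
    (hg : ∀ y : Fin n → k, MultRoot J y → MvPolynomial.eval y g = 0) :
    DegreeBound k P (MvPolynomial.rename Sum.inl g)
      (fun χ => ⌊((p : ℚ) + 1) * J * n * χ / c⌋) := by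
  classical
  intro K _ _ _ htr S z hz hreg hnc hh0 D hD
  have hx : ∀ i, z (Sum.inr (Sum.inl i)) ^ μ i =
      (mp fun j => z (Sum.inl j)).eval (algebraMap k K (a i)) := by
    intro i
    have h1 := hz _ (hP (Or.inl ⟨i, rfl⟩))
    rw [map_sub, map_pow, MvPolynomial.aeval_X, aeval_val, sub_eq_zero] at h1
    exact h1
  have hu : ∀ j, z (Sum.inr (Sum.inr j)) *
      (mp fun j => z (Sum.inl j)).eval (algebraMap k K (b j)) = 1 := by
    intro j
    have h1 := hz _ (hP (Or.inr ⟨j, rfl⟩))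
    rw [map_sub, map_mul, MvPolynomial.aeval_X, aeval_val, map_one, sub_eq_zero] at h1
    exact h1
  have hnc' : ∃ j, z (Sum.inl j) ∉ Set.range (algebraMap k K) := by
    by_contra hcon
    push Not at hcon
    obtain ⟨s, hs⟩ := hnc
    apply hs
    rcases s with j | i | j
    · exact hcon j
    · obtain ⟨c, hc⟩ := mp_eval_mem (k := k) (fun j => z (Sum.inl j)) hcon (a i)
      have h4 : IsAlgebraic k (z (Sum.inr (Sum.inl i)) ^ μ i) := by
        rw [hx i, ← hc]
        exact isAlgebraic_algebraMap c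
      exact mem_range_of_isAlgebraic (h4.of_pow (hμ i))
    · obtain ⟨c, hc⟩ := mp_eval_mem (k := k) (fun j => z (Sum.inl j)) hcon (b j)
      have h1 := hu j
      rw [← hc] at h1
      exact ⟨c⁻¹, by rw [map_inv₀]; exact (eq_inv_of_mul_eq_one_left h1).symm⟩
  rw [MvPolynomial.aeval_rename] at hh0
  have hpf := powerfree J g hg (z ∘ Sum.inl) hh0
  have h1 := height_bound htr D hD S hJ a b hab μ hμ (fun j => z (Sum.inl j))
    (fun i => z (Sum.inr (Sum.inl i))) (fun j => z (Sum.inr (Sum.inr j)))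
    (fun v hv j => hreg v hv _) (fun v hv j => hreg v hv _)
    hx hu hnc' hpf (by linarith)
  rw [← hc] at h1
  have h2 := deg_le htr a b μ hμ z hx hu
  rw [Int.le_floor, le_div_iff₀ hc0]
  have h3 : ((deg k z : ℕ) : ℚ) ≤ (p + 1) * hh k (mp fun j => z (Sum.inl j)) := by
    exact_mod_cast h2
  push_cast
  have hp : (0 : ℚ) < (p : ℚ) + 1 := by positivity
  calc ((deg k z : ℕ) : ℚ) * c ≤ ((p + 1) * hh k (mp fun j => z (Sum.inl j))) * c :=
        mul_le_mul_of_nonneg_right h3 hc0.le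
    _ = (p + 1) * (c * hh k (mp fun j => z (Sum.inl j))) := by ring
    _ ≤ (p + 1) * (J * n * (canDeg D + S.card)) := mul_le_mul_of_nonneg_left h1 hp.le
    _ = _ := by ring

/-- the exceptional set is empty if `n ≤ J` -/
lemma not_multRoot_of_le {k : Type} [Field k] {n J : ℕ} (h : n ≤ J) (y : Fin n → k) :
    ¬ MultRoot J y := by
  rintro ⟨r, hr⟩
  have h1 := natDegree_le_of_dvd hr (mp_monic y).ne_zero
  rw [mp_natDegree, natDegree_pow, natDegree_X_sub_C] at h1
  omega

/-- the exceptional set does not contain the whole variety -/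
lemma exists_point (k : Type) [Field k] [IsAlgClosed k] [CharZero k] (n q p J : ℕ) (hJ : 1 ≤ J)
    (a : Fin q → k) (b : Fin p → k) (μ : Fin q → ℕ) (hμ : ∀ i, 1 ≤ μ i) :
    ∃ z : Fin n ⊕ (Fin q ⊕ Fin p) → k, (∀ P ∈ buchiEqs a μ b, MvPolynomial.eval z P = 0) ∧
      ¬ MultRoot J (fun j => z (Sum.inl j)) := by
  classical
  obtain ⟨T, hTb, hTc⟩ : ∃ T : Finset k, (∀ t ∈ T, ∀ j, t ≠ b j) ∧ T.card = n := by
    obtain ⟨T, hT, hTc⟩ := Set.Infinite.exists_subset_card_eq
      (Set.Finite.infinite_compl (Set.finite_range b)) n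
    refine ⟨T, fun t ht j h => ?_, hTc⟩
    exact hT (Finset.mem_coe.2 ht) ⟨j, h.symm⟩
  obtain ⟨F, hF⟩ : ∃ F : k[X], F = ∏ t ∈ T, (X - C t) := ⟨_, rfl⟩
  have hFm : F.Monic := hF ▸ monic_prod_of_monic _ _ fun t _ => monic_X_sub_C t
  have hFd : F.natDegree = n := by
    rw [hF, natDegree_prod_of_monic _ _ fun t _ => monic_X_sub_C t]
    simp [hTc]
  obtain ⟨y, hy⟩ : ∃ y : Fin n → k, y = fun j : Fin n => F.coeff (j : ℕ) := ⟨_, rfl⟩
  have hmp : mp y = F := by
    ext j
    rcases lt_trichotomy j n with hj | hj | hj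
    · have h1 := mp_coeff y ⟨j, hj⟩
      simp only at h1
      rw [h1, hy]
    · have h1 := (mp_monic y).coeff_natDegree
      have h2 := hFm.coeff_natDegree
      rw [mp_natDegree] at h1
      rw [hFd] at h2
      rw [hj, h1, h2]
    · rw [coeff_eq_zero_of_natDegree_lt (by rw [mp_natDegree]; exact hj),
        coeff_eq_zero_of_natDegree_lt (by rw [hFd]; exact hj)]
  have hFb : ∀ j, F.eval (b j) ≠ 0 := by
    intro j
    rw [hF, eval_prod, Finset.prod_ne_zero_iff]
    intro t ht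
    rw [eval_sub, eval_X, eval_C]
    exact sub_ne_zero.2 (hTb t ht j).symm
  have hroot : ∀ i, ∃ x : k, x ^ μ i = F.eval (a i) := fun i =>
    IsAlgClosed.exists_pow_nat_eq _ (hμ i)
  choose x hx using hroot
  refine ⟨Sum.elim y (Sum.elim x fun j => (F.eval (b j))⁻¹), ?_, ?_⟩
  · have hval : ∀ c, MvPolynomial.eval (Sum.elim y (Sum.elim x fun j => (F.eval (b j))⁻¹))
        (val n q p c) = F.eval c := by
      intro c
      have h1 := aeval_val (k := k) (K := k)
        (Sum.elim y (Sum.elim x fun j => (F.eval (b j))⁻¹)) c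
      simp only [Sum.elim_inl] at h1
      have h2 : (mp fun j : Fin n => y j) = F := hmp
      rw [h2] at h1
      simpa using h1
    rintro P (⟨i, rfl⟩ | ⟨j, rfl⟩)
    · rw [map_sub, map_pow, MvPolynomial.eval_X, hval]
      simp only [Sum.elim_inr, Sum.elim_inl]
      rw [hx, sub_self]
    · rw [map_sub, map_mul, MvPolynomial.eval_X, hval, map_one]
      simp only [Sum.elim_inr]
      rw [inv_mul_cancel₀ (hFb j), sub_self]
  · rintro ⟨r, hr⟩
    have h2 : (mp fun j : Fin n => y j) = F := hmp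
    simp only [Sum.elim_inl] at hr
    rw [h2] at hr
    have hsep : F.Separable := by
      rw [hF]
      exact separable_prod_X_sub_C_iff'.2 fun a _ b _ h => h
    have h3 : (X - C r) * (X - C r) ∣ F := by
      refine dvd_trans ?_ hr
      rw [← sq]
      exact pow_dvd_pow _ (by omega)
    exact not_isUnit_X_sub_C r (hsep.squarefree _ h3)

end Pool.Agent.H84.LV
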