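import Pool.Agent.H27.LV.Curve

/-!
# MP_70ba79_ag: monic polynomials over a function field, derivations, reduction at places
-/

set_option autoImplicit false

namespace Pool.Agent.H84.LV

open Polynomial SC Pool.Agent.H27.LV

variable {k K : Type} [Field k] [Field K] [Algebra k K]

/-- the derivation `D` applied to the coefficients -/
noncomputable def dC (D : Derivation k K K) (F : K[X]) : K[X] :=
  ∑ j ∈ Finset.range (F.natDegree + 1), monomial j (D (F.coeff j))

lemma coeff_dC (D : Derivation k K K) (F : K[X]) (j : ℕ) : (dC D F).coeff j = D (F.coeff j) := by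
  unfold dC
  rw [finsetSum_coeff]
  by_cases hj : j ∈ Finset.range (F.natDegree + 1)
  · rw [Finset.sum_eq_single j]
    · rw [coeff_monomial, if_pos rfl]
    · intro i _ hij
      rw [coeff_monomial, if_neg hij]
    · intro h
      exact absurd hj h
  · rw [Finset.sum_eq_zero]
    · rw [coeff_eq_zero_of_natDegree_lt (by simpa using hj), map_zero]
    · intro i hi
      rw [coeff_monomial, if_neg]
      rintro rfl
      exact hj hi

lemma dC_mul (D : Derivation k K K) (F G : K[X]) : dC D (F * G) = dC D F * G + F * dC D G := by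
  ext j
  rw [coeff_dC, coeff_add, coeff_mul, coeff_mul, coeff_mul, map_sum, ← Finset.sum_add_distrib]
  apply Finset.sum_congr rfl
  intro x _
  rw [coeff_dC, coeff_dC, D.leibniz, smul_eq_mul, smul_eq_mul]
  ring

lemma eval_const (F : K[X]) (c : k) {N : ℕ} (hN : F.natDegree < N) :
    F.eval (algebraMap k K c) =
      ∑ j ∈ Finset.range N, F.coeff j * algebraMap k K (c ^ j) := by
  rw [eval_eq_sum_range' hN]
  simp

lemma natDegree_dC_le (D : Derivation k K K) (F : K[X]) : (dC D F).natDegree ≤ F.natDegree := by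
  rw [natDegree_le_iff_coeff_eq_zero]
  intro j hj
  rw [coeff_dC, coeff_eq_zero_of_natDegree_lt hj, map_zero]

lemma eval_dC (D : Derivation k K K) (F : K[X]) (c : k) :
    (dC D F).eval (algebraMap k K c) = D (F.eval (algebraMap k K c)) := by
  rw [eval_const F c (Nat.lt_succ_self _),
    eval_const (dC D F) c (Nat.lt_succ_of_le (natDegree_dC_le D F)), map_sum]
  apply Finset.sum_congr rfl
  intro j _
  rw [coeff_dC, D.leibniz, D.map_algebraMap, smul_zero, zero_add, smul_eq_mul, mul_comm]

lemma degree_dC_lt (D : Derivation k K K) {F : K[X]} (hF : F.Monic) : (dC D F).degree < F.degree := by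
  rw [degree_eq_natDegree hF.ne_zero, degree_lt_iff_coeff_zero]
  intro j hj
  rw [coeff_dC]
  rcases hj.eq_or_lt with h | h
  · rw [← h, hF.coeff_natDegree, D.map_one_eq_zero]
  · rw [coeff_eq_zero_of_natDegree_lt h, map_zero]

/-- a squarefree polynomial without constant roots is coprime to its derivative along `D` -/
lemma isCoprime_dC [IsAlgClosed k] {D : Derivation k K K}
    (hker : ∀ z : K, D z = 0 → z ∈ Set.range (algebraMap k K)) {G : K[X]} (hG : G ≠ 0)
    (hsq : Squarefree G) (hroot : ∀ c : k, G.eval (algebraMap k K c) ≠ 0) :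
    IsCoprime G (dC D G) := by
  apply isCoprime_of_irreducible_dvd
  · rintro ⟨h, -⟩
    exact hG h
  intro P0 hP0 hPG hPd
  -- monic associate
  obtain ⟨P, hPdef⟩ : ∃ P, P = P0 * C P0.leadingCoeff⁻¹ := ⟨_, rfl⟩
  have hmon : P.Monic := by rw [hPdef]; exact monic_mul_leadingCoeff_inv hP0.ne_zero
  have hu : IsUnit (C P0.leadingCoeff⁻¹) := by
    rw [isUnit_C]
    exact (isUnit_iff_ne_zero.2 (inv_ne_zero (leadingCoeff_ne_zero.2 hP0.ne_zero)))
  have hass : Associated P0 P := by
    rw [hPdef]
    exact (associated_mul_unit_right P0 _ hu)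
  have hirr : Irreducible P := hass.irreducible hP0
  have h1 : P ∣ G := hass.dvd_iff_dvd_left.1 hPG
  have h2 : P ∣ dC D G := hass.dvd_iff_dvd_left.1 hPd
  obtain ⟨Q, rfl⟩ := h1
  rw [dC_mul] at h2
  have h3 : P ∣ dC D P * Q := (dvd_add_left (dvd_mul_right P _)).1 h2
  rcases hirr.prime.dvd_or_dvd h3 with h | h
  · have h0 : dC D P = 0 := eq_zero_of_dvd_of_degree_lt h (degree_dC_lt D hmon)
    -- constant coefficients
    have hc : ∀ j, P.coeff j ∈ Set.range (algebraMap k K) := by
      intro j
      apply hker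
      rw [← coeff_dC, h0, coeff_zero]
    have hl : P ∈ Polynomial.lifts (algebraMap k K) := by
      rw [Polynomial.lifts_iff_coeff_lifts]
      exact hc
    obtain ⟨p, hp⟩ := hl
    have hdeg : p.degree = P.degree := by
      rw [← hp]
      simp
    have hdP : P.degree ≠ 0 := by
      intro h0
      exact hirr.not_isUnit (isUnit_iff_degree_eq_zero.2 h0)
    obtain ⟨c, hcr⟩ := IsAlgClosed.exists_root p (by rw [hdeg]; exact hdP)
    apply hroot c
    rw [eval_mul, ← hp, coe_mapRingHom, eval_map_algebraMap, aeval_algebraMap_apply,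
      coe_aeval_eq_eval, hcr.eq_zero, map_zero, zero_mul]
  · obtain ⟨Q', rfl⟩ := h
    apply hirr.not_isUnit
    exact hsq P ⟨Q', by ring⟩

/-- the largest order of a pole at `v` among the coefficients -/
noncomputable def po (v : DV k K) (F : K[X]) : ℕ :=
  (Finset.range (F.natDegree + 1)).sup fun j => (-(v.ord (F.coeff j))).toNat

lemma po_le_iff (v : DV k K) (F : K[X]) (t : ℕ) :
    po v F ≤ t ↔ ∀ j, -(t : ℤ) ≤ v.ord (F.coeff j) := by
  unfold po
  rw [Finset.sup_le_iff]
  constructor
  · intro h j
    by_cases hj : j ∈ Finset.range (F.natDegree + 1)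
    · have := h j hj
      omega
    · rw [coeff_eq_zero_of_natDegree_lt (by simpa using hj), v.ord_zero]
      omega
  · intro h j _
    have := h j
    omega

lemma ord_coeff_ge (v : DV k K) (F : K[X]) (j : ℕ) : -(po v F : ℤ) ≤ v.ord (F.coeff j) :=
  (po_le_iff v F _).1 le_rfl j

/-- the pole order is attained, if `F` is monic -/
lemma po_attained (v : DV k K) {F : K[X]} (hF : F.Monic) :
    ∃ j, F.coeff j ≠ 0 ∧ v.ord (F.coeff j) = -(po v F : ℤ) := by
  rcases Nat.eq_zero_or_pos (po v F) with h | h
  · refine ⟨F.natDegree, ?_, ?_⟩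
    · rw [hF.coeff_natDegree]; exact one_ne_zero
    · rw [hF.coeff_natDegree, v.ord_one, h]; simp
  · have hne : (Finset.range (F.natDegree + 1)).Nonempty := ⟨0, by simp⟩
    obtain ⟨j, -, hj⟩ := Finset.exists_mem_eq_sup _ hne fun j => (-(v.ord (F.coeff j))).toNat
    have hj' : po v F = (-(v.ord (F.coeff j))).toNat := hj
    refine ⟨j, ?_, by omega⟩
    intro h0
    rw [h0, v.ord_zero] at hj'
    simp at hj'
    omega

/-- reduction of a monic polynomial, normalised by a power of the uniformiser -/
lemma exists_red {v : DV k K}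
    (hrat : ∀ z : K, 0 ≤ v.ord z → ∃ c : k, ge v 1 (z - algebraMap k K c)) {F : K[X]}
    (hF : F.Monic) :
    ∃ P : k[X], P ≠ 0 ∧ P.natDegree ≤ F.natDegree ∧
      ∀ c : k, ge v 1 (v.unif ^ po v F * F.eval (algebraMap k K c) -
        algebraMap k K (P.eval c)) := by
  have hnn : ∀ j, 0 ≤ v.ord (v.unif ^ po v F * F.coeff j) := by
    intro j
    by_cases h : F.coeff j = 0
    · rw [h, mul_zero, v.ord_zero]
    · rw [v.ord_mul' (pow_ne_zero _ v.unif_ne_zero) h, v.ord_unif_pow]
      have := ord_coeff_ge v F j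
      omega
  choose z hz using fun j => hrat _ (hnn j)
  obtain ⟨P, hPdef⟩ : ∃ P : k[X], P = ∑ j ∈ Finset.range (F.natDegree + 1), monomial j (z j) :=
    ⟨_, rfl⟩
  have hdeg : P.natDegree ≤ F.natDegree := by
    rw [hPdef]
    apply natDegree_sum_le_of_forall_le
    intro j hj
    refine (natDegree_monomial_le _).trans ?_
    rw [Finset.mem_range] at hj
    omega
  refine ⟨P, ?_, hdeg, ?_⟩
  · obtain ⟨j, hj0, hj⟩ := po_attained v hF
    intro h0
    have hjr : j ∈ Finset.range (F.natDegree + 1) := by
      by_contra hcon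
      exact hj0 (coeff_eq_zero_of_natDegree_lt (by simpa using hcon))
    have h1 : P.coeff j = z j := by
      rw [hPdef, finsetSum_coeff, Finset.sum_eq_single j]
      · rw [coeff_monomial, if_pos rfl]
      · intro i _ hij
        rw [coeff_monomial, if_neg hij]
      · intro h
        exact absurd hjr h
    rw [h0, coeff_zero] at h1
    have h2 := hz j
    rw [← h1, map_zero, sub_zero] at h2
    rcases h2 with h2 | h2
    · exact (mul_ne_zero (pow_ne_zero _ v.unif_ne_zero) hj0) h2
    · rw [v.ord_mul' (pow_ne_zero _ v.unif_ne_zero) hj0, v.ord_unif_pow, hj] at h2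
      omega
  · intro c
    rw [eval_const F c (Nat.lt_succ_self _), Finset.mul_sum, hPdef, eval_finsetSum, map_sum,
      ← Finset.sum_sub_distrib]
    apply ge_sum
    intro j _
    have h := (hz j).mul (ge_const v (c ^ j))
    rw [add_zero] at h
    convert h using 1
    rw [eval_monomial, map_mul]
    ring

/-- at most `natDegree F` constants are close to roots -/
lemma card_le {v : DV k K}
    (hrat : ∀ z : K, 0 ≤ v.ord z → ∃ c : k, ge v 1 (z - algebraMap k K c)) {F : K[X]}
    (hF : F.Monic) (I : Finset k)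
    (hI : ∀ c ∈ I, ge v (1 - (po v F : ℤ)) (F.eval (algebraMap k K c))) :
    I.card ≤ F.natDegree := by
  classical
  obtain ⟨P, hP0, hPd, hP⟩ := exists_red hrat hF
  refine le_trans ?_ hPd
  refine le_trans ?_ (card_roots' P)
  refine le_trans (Finset.card_le_card (t := P.roots.toFinset) ?_) (Multiset.toFinset_card_le _)
  intro c hc
  rw [Multiset.mem_toFinset, mem_roots hP0, IsRoot.def]
  have h1 : ge v (po v F : ℤ) (v.unif ^ po v F) := Or.inr (by rw [v.ord_unif_pow])
  have h2 := (h1.mul (hI c hc)).mono (t := 1) (by omega)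
  have h3 := h2.sub (hP c)
  rw [sub_sub_cancel] at h3
  exact const_eq_zero v one_pos h3

lemma ge_eval (v : DV k K) (F : K[X]) (c : k) :
    ge v (-(po v F : ℤ)) (F.eval (algebraMap k K c)) := by
  rw [eval_const F c (Nat.lt_succ_self _)]
  apply ge_sum
  intro j _
  have h1 : ge v (-(po v F : ℤ)) (F.coeff j) := Or.inr (ord_coeff_ge v F j)
  have h2 := h1.mul (ge_const v (c ^ j))
  rwa [add_zero] at h2

/-- outside a finite set the values have the generic order -/
lemma exists_generic [Infinite k] {v : DV k K}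
    (hrat : ∀ z : K, 0 ≤ v.ord z → ∃ c : k, ge v 1 (z - algebraMap k K c)) {F : K[X]}
    (hF : F.Monic) :
    {c : k | ¬ (F.eval (algebraMap k K c) ≠ 0 ∧
      v.ord (F.eval (algebraMap k K c)) = -(po v F : ℤ))}.Finite := by
  by_contra hinf
  obtain ⟨I, hI, hcard⟩ := Set.Infinite.exists_subset_card_eq hinf (F.natDegree + 1)
  have := card_le hrat hF I (by
    intro c hc
    have h := hI (Finset.mem_coe.2 hc)
    simp only [Set.mem_ofPred_eq, not_and_or, not_not] at h
    rcases h with h | h
    · exact Or.inl h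
    · rcases ge_eval v F c with h' | h'
      · exact Or.inl h'
      · right; omega)
  omega

/-- Gauss lemma for a constant linear factor -/
lemma po_mul_X_sub_C [Infinite k] {v : DV k K}
    (hrat : ∀ z : K, 0 ≤ v.ord z → ∃ c : k, ge v 1 (z - algebraMap k K c)) {F : K[X]}
    (hF : F.Monic) (b : k) :
    po v ((X - C (algebraMap k K b)) * F) = po v F := by
  have hF' : ((X - C (algebraMap k K b)) * F).Monic := (monic_X_sub_C _).mul hF
  have hfin := (exists_generic hrat hF).union ((exists_generic hrat hF').union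
    (Set.finite_singleton b))
  obtain ⟨c, hc⟩ := hfin.exists_notMem
  simp only [Set.mem_union, Set.mem_ofPred_eq, Set.mem_singleton_iff, not_or, not_not] at hc
  obtain ⟨⟨h1, h2⟩, ⟨h3, h4⟩, h5⟩ := hc
  have h6 : ((X - C (algebraMap k K b)) * F).eval (algebraMap k K c) =
      algebraMap k K (c - b) * F.eval (algebraMap k K c) := by
    rw [eval_mul, eval_sub, eval_X, eval_C, map_sub]
  rw [h6, v.ord_mul' ((_root_.map_ne_zero _).2 (sub_ne_zero.2 h5)) h1, v.ord_base, h2] at h4
  omega

end Pool.Agent.H84.LV
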