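import Pool.Agent.H84.LV.Poly
import Pool.Agent.H70.LV.LDT

/-!
# MP_70ba79_ag: the determinant (resultant of a polynomial and its derivative along `D`) and its
local estimates
-/

set_option autoImplicit false

namespace Pool.Agent.H84.LV

open Polynomial SC Pool.Agent.H27.LV

variable {k K : Type} [Field k] [Field K] [Algebra k K]

/-- columns: the polynomials `T^j G` (`j < m`) and `T^j dG` (`j < m + 1`) -/
noncomputable def colP (D : Derivation k K K) (m : ℕ) (G : K[X]) : Fin m ⊕ Fin (m + 1) → K[X] :=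
  Sum.elim (fun j => X ^ (j : ℕ) * G) (fun j => X ^ (j : ℕ) * dC D G)

/-- coefficient matrix -/
noncomputable def NN (D : Derivation k K K) (m : ℕ) (G : K[X]) :
    Matrix (Fin m ⊕ Fin (m + 1)) (Fin m ⊕ Fin (m + 1)) K :=
  Matrix.of fun p q => (colP D m G q).coeff (finSumFinEquiv p : ℕ)

lemma natDegree_X_pow_mul_le' {F : K[X]} {j n N : ℕ} (h : F.natDegree ≤ n) (hj : j + n ≤ N) :
    (X ^ j * F).natDegree ≤ N := by
  refine natDegree_mul_le.trans ?_
  rw [natDegree_X_pow]
  omega

lemma natDegree_colP_lt (D : Derivation k K K) (m : ℕ) {G : K[X]} (hG : G.Monic)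
    (hdeg : G.natDegree = m + 1) (q : Fin m ⊕ Fin (m + 1)) :
    (colP D m G q).natDegree < m + (m + 1) := by
  have hd : (dC D G).natDegree ≤ m := by
    have h1 := degree_dC_lt D hG
    rw [degree_eq_natDegree hG.ne_zero, hdeg, degree_lt_iff_coeff_zero] at h1
    rw [natDegree_le_iff_coeff_eq_zero]
    intro j hj
    exact h1 j (by omega)
  rcases q with j | j
  · have := j.2
    have := natDegree_X_pow_mul_le' (F := G) (j := j) (n := m + 1) (N := m + m) hdeg.le (by omega)
    change (X ^ (j : ℕ) * G).natDegree < _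
    omega
  · have := j.2
    have := natDegree_X_pow_mul_le' (F := dC D G) (j := j) (n := m) (N := m + m) hd (by omega)
    change (X ^ (j : ℕ) * dC D G).natDegree < _
    omega

/-- the determinant of the coefficient matrix does not vanish if `G` and `dG` are coprime -/
lemma det_NN_ne_zero (D : Derivation k K K) (m : ℕ) {G : K[X]} (hG : G.Monic)
    (hdeg : G.natDegree = m + 1) (hcop : IsCoprime G (dC D G)) : (NN D m G).det ≠ 0 := by
  intro h0
  obtain ⟨c, hc0, hc⟩ := Matrix.exists_mulVec_eq_zero_iff.2 h0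
  apply hc0
  -- the combination of the columns vanishes
  obtain ⟨A, hA⟩ : ∃ A : K[X], A = ∑ j : Fin m, C (c (Sum.inl j)) * X ^ (j : ℕ) := ⟨_, rfl⟩
  obtain ⟨B, hB⟩ : ∃ B : K[X], B = ∑ j : Fin (m + 1), C (c (Sum.inr j)) * X ^ (j : ℕ) := ⟨_, rfl⟩
  have hAB : A * G + B * dC D G = ∑ q, C (c q) * colP D m G q := by
    rw [Fintype.sum_sum_type, hA, hB, Finset.sum_mul, Finset.sum_mul]
    congr 1
    · apply Finset.sum_congr rfl
      intro j _
      simp only [colP, Sum.elim_inl]
      ring
    · apply Finset.sum_congr rfl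
      intro j _
      simp only [colP, Sum.elim_inr]
      ring
  have hzero : A * G + B * dC D G = 0 := by
    rw [hAB]
    ext l
    rw [finsetSum_coeff, coeff_zero]
    by_cases hl : l < m + (m + 1)
    · have h1 := congrFun hc (finSumFinEquiv.symm ⟨l, hl⟩)
      rw [Matrix.mulVec, dotProduct, Pi.zero_apply] at h1
      rw [← h1]
      apply Finset.sum_congr rfl
      intro q _
      rw [coeff_C_mul, NN, Matrix.of_apply, Equiv.apply_symm_apply, mul_comm]
    · apply Finset.sum_eq_zero
      intro q _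
      rw [coeff_C_mul, coeff_eq_zero_of_natDegree_lt, mul_zero]
      have := natDegree_colP_lt D m hG hdeg q
      omega
  have hBdvd : G ∣ B * dC D G := by
    have : B * dC D G = -(A * G) := by linear_combination hzero
    rw [this]
    exact (dvd_mul_left G A).neg_right
  have hB2 : G ∣ B := hcop.dvd_of_dvd_mul_right hBdvd
  have hBdeg : B.degree < G.degree := by
    rw [degree_eq_natDegree hG.ne_zero, hdeg, hB]
    refine lt_of_le_of_lt (degree_sum_le _ _) ?_
    rw [Finset.sup_lt_iff (by exact_mod_cast WithBot.bot_lt_coe (m + 1))]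
    intro j _
    refine lt_of_le_of_lt (degree_C_mul_X_pow_le _ _) ?_
    exact_mod_cast j.2
  have hB0 : B = 0 := eq_zero_of_dvd_of_degree_lt hB2 hBdeg
  have hA0 : A = 0 := by
    rw [hB0, zero_mul, add_zero] at hzero
    exact (mul_eq_zero.1 hzero).resolve_right hG.ne_zero
  have hcoef : ∀ (N : ℕ) (f : Fin N → K), (∑ j : Fin N, C (f j) * X ^ (j : ℕ)) = (0 : K[X]) →
      ∀ j, f j = 0 := by
    intro N f hf j
    have h1 := congrArg (fun P => coeff P (j : ℕ)) hf
    simp only [finsetSum_coeff, coeff_C_mul_X_pow, coeff_zero] at h1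
    rw [Finset.sum_eq_single j] at h1
    · simpa using h1
    · intro i _ hij
      rw [if_neg]
      intro h
      exact hij (Fin.ext h.symm)
    · intro h
      exact absurd (Finset.mem_univ _) h
  funext q
  rcases q with j | j
  · exact hcoef m (fun j => c (Sum.inl j)) (by rw [← hA, hA0]) j
  · exact hcoef (m + 1) (fun j => c (Sum.inr j)) (by rw [← hB, hB0]) j

/-- evaluation matrix -/
noncomputable def MM (D : Derivation k K K) (m : ℕ) (G : K[X]) (P : Fin m ⊕ Fin (m + 1) → k) :
    Matrix (Fin m ⊕ Fin (m + 1)) (Fin m ⊕ Fin (m + 1)) K :=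
  Matrix.of fun p q => (colP D m G q).eval (algebraMap k K (P p))

lemma det_MM (D : Derivation k K K) (m : ℕ) {G : K[X]} (hG : G.Monic)
    (hdeg : G.natDegree = m + 1) (P : Fin m ⊕ Fin (m + 1) → k) (hP : Function.Injective P) :
    ∃ c : k, c ≠ 0 ∧ (MM D m G P).det = algebraMap k K c * (NN D m G).det := by
  obtain ⟨V, hV⟩ : ∃ V : Matrix (Fin m ⊕ Fin (m + 1)) (Fin m ⊕ Fin (m + 1)) k,
      V = Matrix.of fun p q => P p ^ (finSumFinEquiv q : ℕ) := ⟨_, rfl⟩
  refine ⟨V.det, ?_, ?_⟩
  · have h1 : V.submatrix finSumFinEquiv.symm finSumFinEquiv.symm =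
        Matrix.vandermonde (fun i => P (finSumFinEquiv.symm i)) := by
      ext i j
      rw [hV]
      simp [Matrix.vandermonde_apply]
    rw [← Matrix.det_submatrix_equiv_self finSumFinEquiv.symm V, h1,
      Matrix.det_vandermonde_ne_zero_iff]
    exact hP.comp finSumFinEquiv.symm.injective
  · have h1 : MM D m G P = (algebraMap k K).mapMatrix V * NN D m G := by
      ext p q
      rw [MM, Matrix.of_apply, Matrix.mul_apply, eval_const _ _ (natDegree_colP_lt D m hG hdeg q),
        Finset.sum_range]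
      rw [← finSumFinEquiv.sum_comp]
      apply Finset.sum_congr rfl
      intro l _
      rw [RingHom.mapMatrix_apply, Matrix.map_apply, hV, Matrix.of_apply, NN, Matrix.of_apply,
        mul_comm]
    rw [h1, Matrix.det_mul, RingHom.map_det]

/-- the local estimate with row weights -/
lemma local_weights [Infinite k] (D : Derivation k K K) (m : ℕ) {G : K[X]} (hG : G.Monic)
    (hdeg : G.natDegree = m + 1) (v : DV k K) (w : k → ℤ) (hw : ∀ c, 0 ≤ w c) (α β : ℤ)
    (hcard : ∀ I : Finset k, (∀ c ∈ I, 0 < w c) → I.card ≤ m + 1)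
    (h1 : ∀ c, ge v (w c + α) (G.eval (algebraMap k K c)))
    (h2 : ∀ c, ge v (w c + β) (D (G.eval (algebraMap k K c)))) (I : Finset k) :
    ge v (∑ c ∈ I, w c + m * α + (m + 1) * β) (NN D m G).det := by
  classical
  obtain ⟨J, hJ⟩ : ∃ J, J = I.filter fun c => 0 < w c := ⟨_, rfl⟩
  have hJc : J.card ≤ m + 1 := hcard J (by
    intro c hc
    rw [hJ, Finset.mem_filter] at hc
    exact hc.2)
  obtain ⟨J', hJJ', hJ'⟩ := Infinite.exists_superset_card_eq J (m + (m + 1)) (by omega)
  have hcardR : Fintype.card (Fin m ⊕ Fin (m + 1)) = Fintype.card J' := by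
    rw [Fintype.card_sum, Fintype.card_fin, Fintype.card_fin, Fintype.card_coe, hJ']
  obtain ⟨e⟩ := Fintype.card_eq.1 hcardR
  have hinj : Function.Injective (fun p => (e p : k)) := Subtype.val_injective.comp e.injective
  obtain ⟨c, hc0, hc⟩ := det_MM D m hG hdeg (fun p => (e p : k)) hinj
  have hwdt := Pool.Agent.H70.LV.wdt k K v (Fin m ⊕ Fin (m + 1)) (MM D m G fun p => (e p : k))
    (fun p => w (e p)) (Sum.elim (fun _ => α) (fun _ => β)) (by
      intro p q
      rcases q with j | j
      · have h3 := (ge_const v ((e p : k) ^ (j : ℕ))).mul (h1 (e p))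
        rw [zero_add] at h3
        change ge v (w (e p) + α) ((X ^ (j : ℕ) * G).eval (algebraMap k K (e p)))
        rw [eval_mul, eval_pow, eval_X, ← map_pow]
        exact h3
      · have h3 := (ge_const v ((e p : k) ^ (j : ℕ))).mul (h2 (e p))
        rw [zero_add] at h3
        change ge v (w (e p) + β) ((X ^ (j : ℕ) * dC D G).eval (algebraMap k K (e p)))
        rw [eval_mul, eval_pow, eval_X, ← map_pow, eval_dC]
        exact h3)
  rw [hc] at hwdt
  have h4 : ge v 0 (algebraMap k K c⁻¹) := ge_const v _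
  have h5 := h4.mul hwdt
  rw [← mul_assoc, ← map_mul, inv_mul_cancel₀ hc0, map_one, one_mul] at h5
  refine h5.mono ?_
  have h6 : ∑ p, w (e p) = ∑ c ∈ J', w c := by
    rw [e.sum_comp (fun c : J' => w c), Finset.sum_coe_sort J' w]
  have h7 : ∑ c ∈ I, w c = ∑ c ∈ J, w c := by
    rw [hJ, Finset.sum_filter_of_ne]
    intro c _ hne
    exact lt_of_le_of_ne (hw c) hne.symm
  have h8 : ∑ c ∈ J, w c ≤ ∑ c ∈ J', w c :=
    Finset.sum_le_sum_of_subset_of_nonneg hJJ' fun c _ _ => hw c
  have h9 : ∑ j : Fin m ⊕ Fin (m + 1), Sum.elim (fun _ => α) (fun _ => β) j =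
      m * α + (m + 1) * β := by
    rw [Fintype.sum_sum_type]
    simp
  rw [h6, h7, h9]
  linarith

end Pool.Agent.H84.LV
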