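import Pool.Agent.H84.LV.Res
import Pool.Agent.H58.LV.DFI

/-!
# MP_70ba79_ag: the inequality for squarefree monic polynomials with weights
-/

set_option autoImplicit false

namespace Pool.Agent.H84.LV

open Polynomial SC Pool.Agent.H27.LV

variable {k K : Type} [Field k] [Field K] [Algebra k K]

lemma po_add_ord_nonneg (v : DV k K) (F : K[X]) (c : k) :
    0 ≤ v.ord (F.eval (algebraMap k K c)) + po v F := by
  rcases ge_eval v F c with h | h
  · rw [h, v.ord_zero]
    omega
  · omega

/-- the local inequality at a place of `S` -/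
lemma local_S [Infinite k] (D : Derivation k K K) (m : ℕ) {G : K[X]} (hG : G.Monic)
    (hdeg : G.natDegree = m + 1) (v : DV k K)
    (hrat : ∀ z : K, 0 ≤ v.ord z → ∃ c : k, ge v 1 (z - algebraMap k K c))
    (hD : DOrd v D (ordD v D)) (hdet : (NN D m G).det ≠ 0) (I : Finset k) (w : k → ℚ)
    (hw : ∀ c ∈ I, w c ≤ 1) :
    ((m : ℚ) + 1) * ordD v D - (m + 1) - (2 * m + 1) * po v G +
      ∑ c ∈ I, w c * (v.ord (G.eval (algebraMap k K c)) + po v G) ≤ v.ord (NN D m G).det := by
  have h := local_weights D m hG hdeg v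
    (fun c => v.ord (G.eval (algebraMap k K c)) + po v G)
    (fun c => po_add_ord_nonneg v G c) (-(po v G : ℤ)) (ordD v D - 1 - po v G) (by
      intro I hI
      rw [← hdeg]
      apply card_le hrat hG
      intro c hc
      have := hI c hc
      exact Or.inr (by omega)) (by
      intro c
      exact Or.inr (by omega)) (by
      intro c
      by_cases h0 : G.eval (algebraMap k K c) = 0
      · rw [h0, map_zero]
        exact Or.inl rfl
      · exact (hD.2 _ h0).mono (by omega)) I
  have h1 := h.resolve_left hdet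
  have h2 : ∑ c ∈ I, w c * ((v.ord (G.eval (algebraMap k K c)) : ℚ) + po v G) ≤
      ∑ c ∈ I, ((v.ord (G.eval (algebraMap k K c)) : ℚ) + po v G) := by
    apply Finset.sum_le_sum
    intro c hc
    have h3 : (0 : ℚ) ≤ (v.ord (G.eval (algebraMap k K c)) : ℚ) + po v G := by
      exact_mod_cast po_add_ord_nonneg v G c
    nlinarith [hw c hc]
  have h4 : (((∑ c ∈ I, (v.ord (G.eval (algebraMap k K c)) + po v G) + m * (-(po v G : ℤ)) +
      (m + 1) * (ordD v D - 1 - po v G) : ℤ)) : ℚ) ≤ (v.ord (NN D m G).det : ℚ) := by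
    exact_mod_cast h1
  push_cast at h4
  linarith

/-- the local inequality at a place outside `S` -/
lemma local_not_S [Infinite k] (D : Derivation k K K) (m : ℕ) {G : K[X]} (hG : G.Monic)
    (hdeg : G.natDegree = m + 1) (v : DV k K)
    (hrat : ∀ z : K, 0 ≤ v.ord z → ∃ c : k, ge v 1 (z - algebraMap k K c))
    (hD : DOrd v D (ordD v D)) (hdet : (NN D m G).det ≠ 0) (I : Finset k) (w : k → ℚ)
    (hpo : po v G = 0)
    (hw : ∀ c ∈ I, v.ord (G.eval (algebraMap k K c)) = 0 ∨
      1 ≤ (1 - w c) * v.ord (G.eval (algebraMap k K c))) :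
    ((m : ℚ) + 1) * ordD v D - (2 * m + 1) * po v G +
      ∑ c ∈ I, w c * (v.ord (G.eval (algebraMap k K c)) + po v G) ≤ v.ord (NN D m G).det := by
  have hnn : ∀ c, 0 ≤ v.ord (G.eval (algebraMap k K c)) := by
    intro c
    have := po_add_ord_nonneg v G c
    rw [hpo] at this
    simpa using this
  have h := local_weights D m hG hdeg v
    (fun c => max (v.ord (G.eval (algebraMap k K c)) - 1) 0)
    (fun c => le_max_right _ _) 0 (ordD v D) (by
      intro I hI
      rw [← hdeg]
      apply card_le hrat hG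
      intro c hc
      have := hI c hc
      right
      rw [hpo]
      have := (lt_max_iff.1 this).resolve_right (lt_irrefl _)
      push_cast
      omega) (by
      intro c
      have := hnn c
      refine Or.inr ?_
      rw [add_zero]
      exact max_le (by omega) this) (by
      intro c
      rcases max_choice (v.ord (G.eval (algebraMap k K c)) - 1) 0 with h | h
      · rw [h]
        by_cases h0 : G.eval (algebraMap k K c) = 0
        · rw [h0, map_zero]
          exact Or.inl rfl
        · exact hD.2 _ h0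
      · rw [h, zero_add]
        exact hD.1 _ (hnn c)) I
  have h1 := h.resolve_left hdet
  have h2 : ∑ c ∈ I, w c * ((v.ord (G.eval (algebraMap k K c)) : ℚ) + po v G) ≤
      ∑ c ∈ I, ((max (v.ord (G.eval (algebraMap k K c)) - 1) 0 : ℤ) : ℚ) := by
    apply Finset.sum_le_sum
    intro c hc
    rw [hpo, Nat.cast_zero, add_zero]
    rcases hw c hc with h3 | h3
    · rw [h3]
      simp
    · have h4 : ((v.ord (G.eval (algebraMap k K c)) - 1 : ℤ) : ℚ) ≤
          ((max (v.ord (G.eval (algebraMap k K c)) - 1) 0 : ℤ) : ℚ) := by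
        exact_mod_cast le_max_left _ _
      push_cast at h4 ⊢
      linarith
  have h4 : (((∑ c ∈ I, max (v.ord (G.eval (algebraMap k K c)) - 1) 0 + m * 0 +
      (m + 1) * (ordD v D) : ℤ)) : ℚ) ≤ (v.ord (NN D m G).det : ℚ) := by
    exact_mod_cast h1
  push_cast at h4 h2
  rw [hpo] at h2 ⊢
  simp only [Nat.cast_zero, add_zero, mul_zero, sub_zero] at h2 h4 ⊢
  linarith

lemma po_eq_poleOrder (v : DV k K) (F : K[X]) :
    po v F = poleOrder v (fun j : Fin (F.natDegree + 1) => F.coeff j) := by
  apply le_antisymm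
  · rw [po_le_iff]
    intro j
    by_cases hj : j < F.natDegree + 1
    · have h : (-(v.ord (F.coeff j))).toNat ≤
          poleOrder v (fun j : Fin (F.natDegree + 1) => F.coeff j) :=
        Finset.le_sup (f := fun j : Fin (F.natDegree + 1) => (-(v.ord (F.coeff j))).toNat)
          (Finset.mem_univ ⟨j, hj⟩)
      omega
    · rw [coeff_eq_zero_of_natDegree_lt (by omega), v.ord_zero]
      omega
  · unfold poleOrder
    refine Finset.sup_le fun j _ => ?_
    change (-(v.ord (F.coeff j))).toNat ≤ po v F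
    have := ord_coeff_ge v F j
    omega

variable (k) in
/-- the height of a polynomial -/
noncomputable def hh (F : K[X]) : ℕ := ∑ᶠ v : DV k K, po v F

section Global

variable [IsAlgClosed k] [CharZero k] [Algebra.EssFiniteType k K]

lemma po_finite (htr : Algebra.trdeg k K = 1) (F : K[X]) :
    {v : DV k K | po v F ≠ 0}.Finite := by
  have h := pfi k K htr (Fin (F.natDegree + 1)) (fun j => F.coeff j)
  convert h using 3
  rw [po_eq_poleOrder]

/-- the inequality for polynomials without constant roots -/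
theorem smt (htr : Algebra.trdeg k K = 1) (D : Derivation k K K) (hD : D ≠ 0) (m : ℕ) {G : K[X]}
    (hG : G.Monic) (hdeg : G.natDegree = m + 1) (hsq : Squarefree G)
    (hroot : ∀ c : k, G.eval (algebraMap k K c) ≠ 0) (S : Finset (DV k K))
    (hS : ∀ v, v ∉ S → po v G = 0) (I : Finset k) (w : k → ℚ) (hw1 : ∀ c ∈ I, w c ≤ 1)
    (hw : ∀ v, v ∉ S → ∀ c ∈ I, v.ord (G.eval (algebraMap k K c)) = 0 ∨
      1 ≤ (1 - w c) * v.ord (G.eval (algebraMap k K c))) :
    (∑ c ∈ I, w c - (2 * m + 1)) * hh k G ≤ (m + 1) * (canDeg D + S.card) := by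
  classical
  have hker := ker k K htr D hD
  have hdor := dor k K htr D hD
  have hcop := isCoprime_dC hker hG.ne_zero hsq hroot
  have hdet := det_NN_ne_zero D m hG hdeg hcop
  -- local inequality
  have hloc : ∀ v : DV k K, ((m : ℚ) + 1) * ordD v D - (if v ∈ S then ((m : ℚ) + 1) else 0) -
      (2 * m + 1) * po v G +
      ∑ c ∈ I, w c * (v.ord (G.eval (algebraMap k K c)) + po v G) ≤ v.ord (NN D m G).det := by
    intro v
    by_cases hv : v ∈ S
    · rw [if_pos hv]
      exact local_S D m hG hdeg v (rat k K htr v).2 (hdor v).2.1 hdet I w hw1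
    · rw [if_neg hv, sub_zero]
      exact local_not_S D m hG hdeg v (rat k K htr v).2 (hdor v).2.1 hdet I w (hS v hv) (hw v hv)
  -- the finite set of places
  have hf1 := (pfm k K htr (NN D m G).det).1
  have hf2 := Pool.Agent.H58.LV.dfi dor pfm rat k K htr D hD
  have hf3 := po_finite htr G
  have hf4 : (⋃ c ∈ I, {v : DV k K | v.ord (G.eval (algebraMap k K c)) ≠ 0}).Finite :=
    Set.Finite.biUnion I.finite_toSet fun c _ => (pfm k K htr _).1
  have hfin := (S.finite_toSet).union (hf1.union (hf2.union (hf3.union hf4)))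
  obtain ⟨T, hT⟩ : ∃ T, T = hfin.toFinset := ⟨_, rfl⟩
  have hTm : ∀ v : DV k K, v ∉ T → v ∉ S ∧ v.ord (NN D m G).det = 0 ∧ ordD v D = 0 ∧ po v G = 0 ∧
      ∀ c ∈ I, v.ord (G.eval (algebraMap k K c)) = 0 := by
    intro v hv
    rw [hT, Set.Finite.mem_toFinset] at hv
    simp only [Set.mem_union, Finset.mem_coe, Set.mem_ofPred_eq, Set.mem_iUnion, not_or, not_not,
      exists_prop, not_exists, not_and] at hv
    exact ⟨hv.1, hv.2.1, hv.2.2.1, hv.2.2.2.1, hv.2.2.2.2⟩
  have hsupp : ∀ (f : DV k K → ℤ), (∀ v, v ∉ T → f v = 0) → ∑ᶠ v, f v = ∑ v ∈ T, f v := by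
    intro f hf
    apply finsum_eq_sum_of_support_subset
    intro v hv
    by_contra hcon
    exact hv (hf v hcon)
  have h1 : ∑ v ∈ T, v.ord (NN D m G).det = 0 := by
    rw [← hsupp _ fun v hv => (hTm v hv).2.1]
    exact (pfm k K htr _).2
  have h2 : canDeg D = - ∑ v ∈ T, ordD v D := by
    unfold canDeg
    rw [hsupp _ fun v hv => (hTm v hv).2.2.1]
  have h3 : (hh k G : ℤ) = ∑ v ∈ T, (po v G : ℤ) := by
    unfold hh
    rw [finsum_eq_sum_of_support_subset (s := T)]
    · push_cast
      rfl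
    · intro v hv
      by_contra hcon
      exact hv (hTm v hcon).2.2.2.1
  have h4 : ∀ c ∈ I, ∑ v ∈ T, v.ord (G.eval (algebraMap k K c)) = 0 := by
    intro c hc
    rw [← hsupp _ fun v hv => (hTm v hv).2.2.2.2 c hc]
    exact (pfm k K htr _).2
  have hST : S ⊆ T := by
    intro v hv
    by_contra hcon
    exact (hTm v hcon).1 hv
  have h5 : ∑ v ∈ T, (if v ∈ S then ((m : ℚ) + 1) else 0) = (m + 1) * S.card := by
    rw [← Finset.sum_filter, Finset.sum_const, Finset.filter_mem_eq_inter,
      Finset.inter_eq_right.2 hST, nsmul_eq_mul, mul_comm]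
  have h6 := Finset.sum_le_sum fun v (_ : v ∈ T) => hloc v
  rw [Finset.sum_add_distrib, Finset.sum_sub_distrib, Finset.sum_sub_distrib, h5,
    ← Finset.mul_sum, ← Finset.mul_sum, Finset.sum_comm] at h6
  have h7 : ∀ c ∈ I, ∑ v ∈ T, w c * ((v.ord (G.eval (algebraMap k K c)) : ℚ) + po v G) =
      w c * hh k G := by
    intro c hc
    rw [← Finset.mul_sum, Finset.sum_add_distrib]
    have h8 : ∑ v ∈ T, (v.ord (G.eval (algebraMap k K c)) : ℚ) = 0 := by
      exact_mod_cast h4 c hc
    have h9 : ∑ v ∈ T, (po v G : ℚ) = (hh k G : ℚ) := by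
      exact_mod_cast h3.symm
    rw [h8, h9, zero_add]
  rw [Finset.sum_congr rfl h7, ← Finset.sum_mul] at h6
  have h8 : ∑ v ∈ T, (v.ord (NN D m G).det : ℚ) = 0 := by exact_mod_cast h1
  have h9 : ∑ v ∈ T, (po v G : ℚ) = (hh k G : ℚ) := by exact_mod_cast h3.symm
  have h10 : (canDeg D : ℚ) = - ∑ v ∈ T, (ordD v D : ℚ) := by exact_mod_cast h2
  rw [h8, h9] at h6
  rw [h10]
  linarith

end Global

end Pool.Agent.H84.LV
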